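import Mathlib

/-! Online rules for Gaussian discrepancy. -/

open MeasureTheory ProbabilityTheory
open scoped ENNReal

namespace Pool.Agent.P.MP_7b0970_co.On

variable {m n : ℕ}

/-- All columns have Euclidean norm at most one. -/
def Adm (A : Matrix (Fin m) (Fin n) ℝ) : Prop := ∀ j, ∑ i, A i j ^ 2 ≤ 1

/-- An online rule: it gives every admissible matrix a correlation matrix, whose entry
`(j, k)` depends only on the columns of index at most the larger of `j` and `k`. -/
def Online (S : Matrix (Fin m) (Fin n) ℝ → Matrix (Fin n) (Fin n) ℝ) : Prop :=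
  (∀ A, Adm A → (S A).PosSemidef ∧ ∀ j, S A j j = 1) ∧
    ∀ A B, Adm A → Adm B → ∀ j k, (∀ i l, l ≤ max j k → A i l = B i l) → S A j k = S B j k

/-- The mean of `N (A g)` for a centred Gaussian vector `g` with covariance matrix `C`. -/
noncomputable def mean (N : (Fin m → ℝ) → ℝ) (A : Matrix (Fin m) (Fin n) ℝ)
    (C : Matrix (Fin n) (Fin n) ℝ) : ℝ≥0∞ :=
  ∫⁻ g, ENNReal.ofReal (N (A.mulVec (WithLp.ofLp g))) ∂(multivariateGaussian 0 C)

/-- The first `t` columns, the others replaced by zero. -/
def cut (t : ℕ) (A : Matrix (Fin m) (Fin n) ℝ) : Matrix (Fin m) (Fin n) ℝ :=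
  Matrix.of fun i j => if j.val < t then A i j else 0

end Pool.Agent.P.MP_7b0970_co.On
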