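import Pool.Agent.P.MP_7b0970_co.On.Defs

/-! The values of the online problem over all horizons. -/

open scoped ENNReal

namespace Pool.Agent.P.MP_7b0970_co.On

variable {m n q : ℕ}

/-- The matrix whose column `j` is the vector `F (x j)`. -/
def mat (F : Fin q → Fin m → ℝ) (x : Fin n → Fin q) : Matrix (Fin m) (Fin n) ℝ :=
  Matrix.of fun i j => F (x j) i

/-- The worst case value: over all horizons, the best online rule, its worst input and prefix. -/
noncomputable def worst (N : (Fin m → ℝ) → ℝ) : ℝ≥0∞ :=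
  ⨆ n : ℕ, ⨅ (S : Matrix (Fin m) (Fin n) ℝ → Matrix (Fin n) (Fin n) ℝ) (_ : Online S),
    ⨆ (A : Matrix (Fin m) (Fin n) ℝ) (_ : Adm A) (t : ℕ), mean N (cut t A) (S A)

/-- The value for independent uniform columns from a finite list: the least bound `K` that some
online rule keeps on all prefixes for at least the fraction `δ` of the inputs. -/
noncomputable def quant (N : (Fin m → ℝ) → ℝ) (δ : ℝ) : ℝ≥0∞ :=
  ⨆ (n : ℕ) (q : ℕ) (_ : 0 < q) (F : Fin q → Fin m → ℝ) (_ : ∀ k, ∑ i, F k i ^ 2 ≤ 1),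
    ⨅ (S : Matrix (Fin m) (Fin n) ℝ → Matrix (Fin n) (Fin n) ℝ) (_ : Online S) (K : ℝ≥0∞)
      (_ : δ * (q : ℝ) ^ n ≤ Set.ncard
        {x : Fin n → Fin q | ∀ t : ℕ, mean N (cut t (mat F x)) (S (mat F x)) ≤ K}), K

end Pool.Agent.P.MP_7b0970_co.On
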