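import Pool.Agent.P.MP_7b0970_co.On.Defs
import Pool.Agent.P.MP_7b0970_co.Gauss

/-! The law of a linear image, comparison of covariances, and two maximal bounds. -/

open MeasureTheory ProbabilityTheory Matrix Real
open scoped ENNReal

namespace Pool.Agent.P.MP_7b0970_co.On

variable {m n : ℕ}

lemma psd_conj {C : Matrix (Fin n) (Fin n) ℝ} (hC : C.PosSemidef) (A : Matrix (Fin m) (Fin n) ℝ) :
    (A * C * Aᵀ).PosSemidef := by
  simpa using hC.mul_mul_conjTranspose_same A

lemma quad_conj (C : Matrix (Fin n) (Fin n) ℝ) (A : Matrix (Fin m) (Fin n) ℝ) (x : Fin m → ℝ) :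
    x ⬝ᵥ (A * C * Aᵀ) *ᵥ x = (x ᵥ* A) ⬝ᵥ C *ᵥ (x ᵥ* A) := by
  rw [← mulVec_mulVec, ← mulVec_mulVec, dotProduct_mulVec, mulVec_transpose]

lemma law_map {C : Matrix (Fin n) (Fin n) ℝ} (hC : C.PosSemidef) (A : Matrix (Fin m) (Fin n) ℝ) :
    (multivariateGaussian 0 C).map
      (fun g => (WithLp.toLp 2 (A *ᵥ g.ofLp) : EuclideanSpace ℝ (Fin m))) =
      multivariateGaussian 0 (A * C * Aᵀ) := by
  have hm : Continuous fun g : EuclideanSpace ℝ (Fin n) =>
      (WithLp.toLp 2 (A *ᵥ g.ofLp) : EuclideanSpace ℝ (Fin m)) := by fun_prop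
  have : IsProbabilityMeasure ((multivariateGaussian 0 C).map
      (fun g => (WithLp.toLp 2 (A *ᵥ g.ofLp) : EuclideanSpace ℝ (Fin m)))) :=
    Measure.isProbabilityMeasure_map hm.measurable.aemeasurable
  refine Measure.ext_of_charFun (funext fun x => ?_)
  have h := charFun_multivariateGaussian (μ := 0) hC (WithLp.toLp 2 (x.ofLp ᵥ* A))
  rw [charFun_multivariateGaussian (psd_conj hC A), charFun_apply,
    integral_map hm.measurable.aemeasurable (by fun_prop), quad_conj]
  rw [charFun_apply] at h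
  simp only [inner_zero_right] at h ⊢
  rw [← h]
  refine integral_congr_ae (Filter.Eventually.of_forall fun g => ?_)
  have e : inner ℝ (WithLp.toLp 2 (A *ᵥ g.ofLp) : EuclideanSpace ℝ (Fin m)) x =
      inner ℝ g (WithLp.toLp 2 (x.ofLp ᵥ* A) : EuclideanSpace ℝ (Fin n)) := by
    simp only [EuclideanSpace.inner_eq_star_dotProduct, star_trivial]
    rw [dotProduct_mulVec]
  simp only [e]

lemma mean_eq {N : (Fin m → ℝ) → ℝ} (hN : Continuous N) {C : Matrix (Fin n) (Fin n) ℝ}
    (hC : C.PosSemidef) (A : Matrix (Fin m) (Fin n) ℝ) :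
    mean N A C = mean N 1 (A * C * Aᵀ) := by
  unfold mean
  rw [← law_map hC A, lintegral_map (by fun_prop) (by fun_prop)]
  simp

lemma mean_mono {N : Seminorm ℝ (Fin m → ℝ)} (hN : Continuous N)
    {C D : Matrix (Fin m) (Fin m) ℝ} (hC : C.PosSemidef) (hD : (D - C).PosSemidef) :
    mean N 1 C ≤ mean N 1 D := by
  have hD' : D.PosSemidef := by simpa using hC.add hD
  have e : multivariateGaussian 0 D =
      multivariateGaussian 0 C ∗ multivariateGaussian 0 (D - C) := by
    refine Measure.ext_of_charFun (funext fun x => ?_)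
    rw [charFun_conv, charFun_multivariateGaussian hC, charFun_multivariateGaussian hD,
      charFun_multivariateGaussian hD', ← Complex.exp_add, sub_mulVec, dotProduct_sub]
    congr 1
    simp only [inner_zero_right]
    push_cast
    ring
  have s : (multivariateGaussian (0 : EuclideanSpace ℝ (Fin m)) (D - C)).map (fun y => -y) =
      multivariateGaussian 0 (D - C) := by
    have := law_map hD (-1 : Matrix (Fin m) (Fin m) ℝ)
    simpa [neg_mulVec] using this
  unfold mean
  simp only [one_mulVec]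
  have hf : Measurable fun x : EuclideanSpace ℝ (Fin m) => ENNReal.ofReal (N x.ofLp) := by
    fun_prop
  rw [e, Measure.lintegral_conv hf]
  refine lintegral_mono fun x => ?_
  set ν := multivariateGaussian (0 : EuclideanSpace ℝ (Fin m)) (D - C)
  have h1 : ∫⁻ y, ENNReal.ofReal (N (x + y).ofLp) ∂ν =
      ∫⁻ y, ENNReal.ofReal (N (x + -y).ofLp) ∂ν := by
    conv_lhs => rw [← s]
    rw [lintegral_map (by fun_prop) (by fun_prop)]
  have h2 : 2 * ENNReal.ofReal (N x.ofLp) ≤ 2 * ∫⁻ y, ENNReal.ofReal (N (x + y).ofLp) ∂ν := by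
    conv_rhs => rw [two_mul]; rhs; rw [h1]
    rw [← lintegral_add_left (by fun_prop), ← mul_one (2 * _), ← measure_univ (μ := ν),
      ← lintegral_const]
    refine lintegral_mono fun y => ?_
    rw [← ENNReal.ofReal_add (apply_nonneg _ _) (apply_nonneg _ _), two_mul,
      ← ENNReal.ofReal_add (apply_nonneg _ _) (apply_nonneg _ _)]
    refine ENNReal.ofReal_le_ofReal ?_
    have h3 := map_add_le_add N (x + y).ofLp (x + -y).ofLp
    have h4 : (x + y).ofLp + (x + -y).ofLp = (2 : ℝ) • x.ofLp := by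
      ext i; simp; ring
    rw [h4, map_smul_eq_mul] at h3
    rw [← two_mul]
    simpa using h3
  exact (ENNReal.mul_le_mul_iff_right (by norm_num) (by norm_num)).1 h2

lemma mean_smul {N : Seminorm ℝ (Fin m → ℝ)} (hN : Continuous N) {a : ℝ} (ha : 0 ≤ a) :
    mean N 1 (a ^ 2 • (1 : Matrix (Fin m) (Fin m) ℝ)) = ENNReal.ofReal a *
      mean N 1 (1 : Matrix (Fin m) (Fin m) ℝ) := by
  have h := mean_eq (N := N) hN PosSemidef.one (a • (1 : Matrix (Fin m) (Fin m) ℝ))
  have e : a • (1 : Matrix (Fin m) (Fin m) ℝ) * 1 * (a • (1 : Matrix (Fin m) (Fin m) ℝ))ᵀ =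
      a ^ 2 • 1 := by simp [sq, smul_smul]
  rw [e] at h
  rw [← h]
  unfold mean
  rw [← lintegral_const_mul _ (by fun_prop)]
  refine lintegral_congr fun g => ?_
  rw [smul_mulVec, map_smul_eq_mul, Real.norm_of_nonneg ha, ENNReal.ofReal_mul ha]

/-- A coordinate variance is bounded by the mean. -/
lemma var_le {N : (Fin m → ℝ) → ℝ} {κ K : ℝ} (hκ : 0 < κ) (hK : 0 ≤ K)
    (hN : ∀ x, κ * ‖x‖ ≤ N x) {C : Matrix (Fin m) (Fin m) ℝ} (hC : C.PosSemidef)
    (h : mean N 1 C ≤ ENNReal.ofReal K) (i : Fin m) : C i i ≤ 2 * (K / κ) ^ 2 := by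
  have h0 : 0 ≤ C i i := hC.diag_nonneg
  have h1 := (measurePreserving_eval_multivariateGaussian (μ := 0) hC (i := i)).lintegral_comp
    (f := fun t => ENNReal.ofReal (κ * |t|)) (by fun_prop)
  have h2 : gaussianReal 0 (C i i).toNNReal = (gaussianReal 0 1).map (√(C i i) * ·) := by
    rw [gaussianReal_map_const_mul]
    congr 1
    · simp
    · ext; simp [sq_sqrt h0, h0]
  have h3 : ENNReal.ofReal (κ * √(C i i) * (2 * ph)) ≤ ENNReal.ofReal K := by
    refine le_trans (le_of_eq ?_) (le_trans (lintegral_mono fun g =>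
      ENNReal.ofReal_le_ofReal (q := N _) (p := κ * |g.ofLp i|) ?_) h)
    · rw [h1, PiLp.zero_apply, h2, lintegral_map (by fun_prop) (by fun_prop),
        ← integral_abs_gauss, ← integral_const_mul,
        ofReal_integral_eq_lintegral_ofReal (integrable_abs_gauss.const_mul _)
          (Filter.Eventually.of_forall fun x => by positivity)]
      refine lintegral_congr fun t => ?_
      rw [abs_mul, abs_of_nonneg (sqrt_nonneg _), mul_assoc]
    · rw [one_mulVec]
      exact (mul_le_mul_of_nonneg_left (norm_le_pi_norm g.ofLp i) hκ.le).trans (hN _)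
  rw [ENNReal.ofReal_le_ofReal_iff hK] at h3
  have h4 : √(C i i) * (3 / 4) ≤ K / κ := by
    rw [le_div_iff₀ hκ]
    have := mul_le_mul_of_nonneg_left ph_lower (mul_nonneg hκ.le (sqrt_nonneg (C i i)))
    nlinarith [mul_nonneg hκ.le (sqrt_nonneg (C i i))]
  nlinarith [sq_sqrt h0, sqrt_nonneg (C i i), mul_self_le_mul_self (by positivity) h4]

end Pool.Agent.P.MP_7b0970_co.On
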