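import Pool.Agent.P.MP_7b0970_co.On.Up

/-! The adversary: the trace grows while a direction has small variance. -/

open Matrix Real Finset
open scoped ENNReal

namespace Pool.Agent.P.MP_7b0970_co.On

variable {m n : ℕ} {S : Matrix (Fin m) (Fin n) ℝ → Matrix (Fin n) (Fin n) ℝ}

/-- The covariance matrix of the sum of the first `t` terms. -/
def cv (S : Matrix (Fin m) (Fin n) ℝ → Matrix (Fin n) (Fin n) ℝ) (A : Matrix (Fin m) (Fin n) ℝ)
    (t : ℕ) : Matrix (Fin m) (Fin m) ℝ := cut t A * S A * (cut t A)ᵀ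

lemma cv_psd (hS : Online S) {A : Matrix (Fin m) (Fin n) ℝ} (hA : Adm A) (t : ℕ) :
    (cv S A t).PosSemidef := psd_conj (hS.1 A hA).1 _

lemma cv_congr (hS : Online S) {A B : Matrix (Fin m) (Fin n) ℝ} (hA : Adm A) (hB : Adm B) {t : ℕ}
    (h : cut t A = cut t B) : cv S A t = cv S B t := by
  ext i i'
  simp only [cv, ← h, mul_apply, transpose_apply, sum_mul]
  refine sum_congr rfl fun k _ => sum_congr rfl fun j _ => ?_
  by_cases hj : j.val < t
  · by_cases hk : k.val < t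
    · rw [hS.2 A B hA hB j k fun r l hl => ?_]
      have hl' : l.val < t := by
        rcases le_max_iff.1 hl with h1 | h1 <;> exact lt_of_le_of_lt h1 ‹_›
      simpa [cut, hl'] using congrFun (congrFun h r) l
    · simp [cut, hk]
  · simp [cut, hj]

lemma cut_lt (A : Matrix (Fin m) (Fin n) ℝ) {t : ℕ} (i : Fin m) {j : Fin n} (h : j.val < t) :
    cut t A i j = A i j := if_pos h

lemma cut_ge (A : Matrix (Fin m) (Fin n) ℝ) {t : ℕ} (i : Fin m) {j : Fin n} (h : ¬ j.val < t) :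
    cut t A i j = 0 := if_neg h

lemma cut_all (A : Matrix (Fin m) (Fin n) ℝ) : cut n A = A := by
  ext i j; simp [cut]

lemma conj_diag (C : Matrix (Fin n) (Fin n) ℝ) (X : Matrix (Fin m) (Fin n) ℝ) (i : Fin m) :
    (X * C * Xᵀ) i i = X i ⬝ᵥ C *ᵥ X i := by
  rw [diag_eq (X * C * Xᵀ), quad_conj, single_one_vecMul]
  rfl

lemma step (hS : Online S) {A : Matrix (Fin m) (Fin n) ℝ} (hA : Adm A) (t : Fin n) {b : ℝ}
    (hb : 0 < b) (h1 : (fun i => A i t) ⬝ᵥ (fun i => A i t) = 1)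
    (h2 : (fun i => A i t) ⬝ᵥ cv S A t *ᵥ (fun i => A i t) ≤ b ^ 2) :
    ∑ i, cv S A t i i + (1 - 2 * b) ≤ ∑ i, cv S A (t + 1) i i := by
  obtain ⟨hp, hd⟩ := hS.1 A hA
  have hs : ∀ x y, x ⬝ᵥ S A *ᵥ y = y ⬝ᵥ S A *ᵥ x := fun x y => by
    rw [dotProduct_mulVec, ← mulVec_transpose, dotProduct_comm,
      show (S A)ᵀ = S A by simpa using hp.1.eq]
  have he : Pi.single t 1 ⬝ᵥ S A *ᵥ Pi.single t 1 = 1 := by rw [← diag_eq, hd]
  have hc : ∀ i, cut (t + 1) A i = cut t A i + A i t • Pi.single t 1 := fun i => by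
    funext j
    by_cases h : j = t
    · simp [cut, h]
    · have : j.val ≠ t.val := fun e => h (Fin.ext e)
      rw [Pi.add_apply, Pi.smul_apply, Pi.single_eq_of_ne h, smul_zero, add_zero]
      by_cases h' : j.val < t
      · rw [cut_lt A i h', cut_lt A i (by omega)]
      · rw [cut_ge A i h', cut_ge A i (by omega)]
  rw [cv, quad_conj] at h2
  set y := (fun i => A i t) ᵥ* cut t A with hy
  have h3 := hp.dotProduct_mulVec_nonneg (y + b • Pi.single t 1)
  simp only [star_trivial, mulVec_add, mulVec_smul, add_dotProduct, dotProduct_add,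
    dotProduct_smul, smul_dotProduct, smul_eq_mul, he, hs (Pi.single t 1) y] at h3
  have h4 : -b ≤ y ⬝ᵥ S A *ᵥ Pi.single t 1 := by nlinarith
  have h5 : y ⬝ᵥ S A *ᵥ Pi.single t 1 = ∑ i, A i t * (cut t A i ⬝ᵥ S A *ᵥ Pi.single t 1) := by
    rw [hy, vecMul_eq_sum, sum_dotProduct]
    exact sum_congr rfl fun i _ => by rw [smul_dotProduct, smul_eq_mul]
  simp only [cv, conj_diag, hc, mulVec_add, mulVec_smul, add_dotProduct, dotProduct_add,
    dotProduct_smul, smul_dotProduct, smul_eq_mul, he, hs (Pi.single t 1), mul_add,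
    sum_add_distrib, ← h5, mul_one]
  simp only [dotProduct] at h1
  linarith

lemma small_dir {C : Matrix (Fin m) (Fin m) ℝ} (hC : C.PosSemidef) {a : ℝ}
    (h : ¬ (C - a ^ 2 • (1 : Matrix (Fin m) (Fin m) ℝ)).PosSemidef) :
    ∃ x : Fin m → ℝ, x ⬝ᵥ x = 1 ∧ x ⬝ᵥ C *ᵥ x ≤ a ^ 2 := by
  rw [posSemidef_iff_dotProduct_mulVec, not_and] at h
  have h1 := h (hC.1.sub (PosSemidef.one.smul (sq_nonneg a)).1)
  push Not at h1
  obtain ⟨x, hx⟩ := h1
  rw [star_trivial, sub_mulVec, dotProduct_sub, smul_mulVec, one_mulVec, dotProduct_smul,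
    smul_eq_mul] at hx
  have h2 := hC.dotProduct_mulVec_nonneg x
  rw [star_trivial] at h2
  have h3 : 0 < x ⬝ᵥ x := by
    by_contra h4
    nlinarith [sq_nonneg a]
  have h5 : (√(x ⬝ᵥ x))⁻¹ * (√(x ⬝ᵥ x))⁻¹ = (x ⬝ᵥ x)⁻¹ := by
    rw [← mul_inv, mul_self_sqrt h3.le]
  refine ⟨(√(x ⬝ᵥ x))⁻¹ • x, ?_, ?_⟩
  · rw [smul_dotProduct, dotProduct_smul, smul_eq_mul, smul_eq_mul, ← mul_assoc, h5,
      inv_mul_cancel₀ h3.ne']
  · rw [mulVec_smul, smul_dotProduct, dotProduct_smul, smul_eq_mul, smul_eq_mul, ← mul_assoc, h5,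
      inv_mul_le_iff₀ h3]
    linarith

lemma small_of_mean {N : Seminorm ℝ (Fin m → ℝ)} (hN : Continuous N)
    {C : Matrix (Fin m) (Fin m) ℝ} (hC : C.PosSemidef) {a : ℝ} (ha : 0 ≤ a)
    (h : mean N 1 C < ENNReal.ofReal a * mean N 1 (1 : Matrix (Fin m) (Fin m) ℝ)) :
    ∃ x : Fin m → ℝ, x ⬝ᵥ x = 1 ∧ x ⬝ᵥ C *ᵥ x ≤ a ^ 2 :=
  small_dir hC fun h1 => h.not_ge <| by
    rw [← mean_smul hN ha]
    exact mean_mono hN (PosSemidef.one.smul (sq_nonneg a)) h1

/-- The adaptive adversary for the sup norm. -/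
lemma adapt (hS : Online S) {K : ℝ} (hK : 0 < K) (hm : 2 * exp ((6 * K + 1) ^ 2 / 2) < m)
    (h : ∀ A, Adm A → mean (fun x : Fin m → ℝ => ‖x‖) A (S A) < ENNReal.ofReal K) :
    (n : ℝ) ≤ 6 * K ^ 2 * m := by
  have h1 : ENNReal.ofReal K ≤ ENNReal.ofReal (1 / 3) *
      mean (fun x : Fin m → ℝ => ‖x‖) 1 (1 : Matrix (Fin m) (Fin m) ℝ) := by
    have h2 : ¬ mean (fun x : Fin m → ℝ => ‖x‖) 1 (1 : Matrix (Fin m) (Fin m) ℝ) ≤
        ENNReal.ofReal (3 * K) := fun h3 => by
      have := max_lower (by positivity) h3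
      rw [show 2 * (3 * K) = 6 * K by ring] at this
      linarith
    rw [show K = 1 / 3 * (3 * K) by ring, ENNReal.ofReal_mul (by norm_num)]
    exact mul_le_mul_right (not_le.1 h2).le _
  have h4 : ∀ A t, Adm A → cut t A = A →
      mean (fun x : Fin m → ℝ => ‖x‖) 1 (cv S A t) < ENNReal.ofReal K := fun A t hA e => by
    rw [cv, e, ← mean_eq continuous_norm (hS.1 A hA).1]
    exact h A hA
  have h5 : ∀ t ≤ n, ∃ A, Adm A ∧ cut t A = A ∧ (t : ℝ) / 3 ≤ ∑ i, cv S A t i i := by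
    intro t ht
    induction t with
    | zero => exact ⟨0, fun j => by simp, by ext; simp [cut], by simp [cv, cut, mul_apply]⟩
    | succ t ih =>
      obtain ⟨A, hA, e, h6⟩ := ih (by omega)
      obtain ⟨x, hx, hx2⟩ := small_of_mean (N := normSeminorm ℝ _) continuous_norm
        (cv_psd hS hA t) (by norm_num) ((h4 A t hA e).trans_le h1)
      have hB : Adm (A.updateCol ⟨t, ht⟩ x) := fun j => by
        by_cases hj : j = ⟨t, ht⟩
        · simpa [hj, sq, dotProduct] using hx.le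
        · simpa [hj] using hA j
      have e2 : cut t (A.updateCol ⟨t, ht⟩ x) = cut t A := by
        ext i j
        by_cases hj : j.val < t
        · simp [cut, hj, updateCol_apply, show j ≠ ⟨t, ht⟩ from fun e => by simp [e] at hj]
        · simp [cut, hj]
      refine ⟨_, hB, ?_, ?_⟩
      · ext i j
        by_cases hj : j.val < t + 1
        · exact cut_lt _ i hj
        · rw [cut_ge _ i hj, updateCol_apply, if_neg fun e => by simp [e] at hj, ← e,
            cut_ge _ i (by omega)]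
      · have := step hS hB ⟨t, ht⟩ (b := 1 / 3) (by norm_num) (by simpa using hx)
          (by simpa [cv_congr hS hB hA e2] using hx2)
        simp only [cv_congr hS hB hA e2] at this
        push_cast
        linarith
  obtain ⟨A, hA, e, h7⟩ := h5 n le_rfl
  have h8 := sum_le_card_nsmul univ _ _ fun i _ => var_le (κ := 1) one_pos hK.le
    (fun x => (one_mul _).le) (cv_psd hS hA n) (h4 A n hA e).le i
  simp only [card_univ, Fintype.card_fin, nsmul_eq_mul, div_one] at h8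
  linarith

end Pool.Agent.P.MP_7b0970_co.On
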