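import Pool.Agent.P.MP_7b0970_co.On.Law

/-! Upper and lower bounds for the mean of the sup norm. -/

open MeasureTheory ProbabilityTheory Matrix Real
open scoped ENNReal

namespace Pool.Agent.P.MP_7b0970_co.On

variable {m : ℕ}

lemma cosh_int {C : Matrix (Fin m) (Fin m) ℝ} (hC : C.PosSemidef) (i : Fin m) (l : ℝ) :
    Integrable (fun g : EuclideanSpace ℝ (Fin m) => exp (l * g i)) (multivariateGaussian 0 C) ∧
    ∫ g : EuclideanSpace ℝ (Fin m), exp (l * g i) ∂(multivariateGaussian 0 C) =
      exp (C i i * (l ^ 2 / 2)) := by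
  have h := measurePreserving_eval_multivariateGaussian (μ := 0) hC (i := i)
  refine ⟨(h.integrable_comp (g := fun t => exp (l * t)) (by fun_prop)).2
    (integrable_exp_mul_gaussianReal l), ?_⟩
  rw [← integral_map (f := fun t => exp (l * t)) (φ := fun g : EuclideanSpace ℝ (Fin m) => g i)
    (by fun_prop) (by fun_prop), h.map_eq]
  have := congrFun (mgf_fun_id_gaussianReal (μ := 0) (v := (C i i).toNNReal)) l
  simp only [mgf, zero_mul, zero_add, Real.coe_toNNReal _ hC.diag_nonneg] at this
  rw [PiLp.zero_apply, this]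
  congr 1
  ring

lemma max_upper {C : Matrix (Fin m) (Fin m) ℝ} (hC : C.PosSemidef) (h1 : ∀ i, C i i ≤ 1)
    {M : ℝ} (hM : 1 ≤ M) (ht : ∑ i, C i i ≤ M) :
    mean (fun x : Fin m → ℝ => ‖x‖) 1 C ≤ ENNReal.ofReal √(2 * log (2 * M)) := by
  have hl : 0 < log (2 * M) := log_pos (by linarith)
  set l := √(2 * log (2 * M)) with hl'
  have hl0 : 0 < l := sqrt_pos.2 (by linarith)
  have hl2 : l ^ 2 / 2 = log (2 * M) := by rw [hl', sq_sqrt (by linarith)]; ring
  have he : exp (l ^ 2 / 2) = 2 * M := by rw [hl2, exp_log (by linarith)]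
  have he2 : exp (l ^ 2) = (2 * M) ^ 2 := by rw [← he, ← exp_nat_mul]; congr 1; push_cast; ring
  set G : EuclideanSpace ℝ (Fin m) → ℝ := fun g =>
    l - 1 / l + (2 + ∑ i, (exp (l * g i) + exp (-l * g i) - 2)) / ((2 * M) ^ 2 * l)
  have hi : ∀ i, Integrable (fun g : EuclideanSpace ℝ (Fin m) =>
      exp (l * g i) + exp (-l * g i) - 2) (multivariateGaussian 0 C) := fun i =>
    ((cosh_int hC i l).1.add (cosh_int hC i (-l)).1).sub (integrable_const _)
  have hs := integrable_finsetSum Finset.univ fun i _ => hi i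
  have hs2 : Integrable (fun g : EuclideanSpace ℝ (Fin m) =>
      (2 + ∑ i, (exp (l * g i) + exp (-l * g i) - 2)) / ((2 * M) ^ 2 * l))
      (multivariateGaussian 0 C) := ((integrable_const _).add hs).div_const _
  have hG : Integrable G (multivariateGaussian 0 C) := (integrable_const _).add hs2
  have hp : ∀ g : EuclideanSpace ℝ (Fin m), ‖g.ofLp‖ ≤ G g := fun g => by
    have h2 : ∀ t : ℝ, 0 ≤ exp (l * t) + exp (-l * t) - 2 := fun t => by
      linarith [add_one_le_exp (l * t), add_one_le_exp (-l * t)]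
    have h3 : exp (l * ‖g.ofLp‖) ≤ 2 + ∑ i, (exp (l * g i) + exp (-l * g i) - 2) := by
      have h0 := Finset.sum_nonneg fun i (_ : i ∈ Finset.univ) => h2 (g i)
      rw [← le_log_iff_exp_le (by linarith), ← le_div_iff₀' hl0]
      refine (pi_norm_le_iff_of_nonneg (div_nonneg (log_nonneg (by linarith)) hl0.le)).2 fun i => ?_
      rw [le_div_iff₀' hl0, le_log_iff_exp_le (by linarith), Real.norm_eq_abs]
      have := Finset.single_le_sum (f := fun i => exp (l * g i) + exp (-l * g i) - 2)
        (fun i _ => h2 _) (Finset.mem_univ i)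
      rcases abs_cases (g.ofLp i) with h | h
      · rw [h.1]; linarith [exp_pos (-l * g i)]
      · rw [h.1, mul_neg, ← neg_mul]; linarith [exp_pos (l * g i)]
    have h4 := add_one_le_exp (l * ‖g.ofLp‖ - l ^ 2)
    rw [exp_sub, he2] at h4
    have h5 : exp (l * ‖g.ofLp‖) / (2 * M) ^ 2 ≤
      (2 + ∑ i, (exp (l * g i) + exp (-l * g i) - 2)) / (2 * M) ^ 2 := by gcongr
    refine le_of_mul_le_mul_left ?_ hl0
    simp only [G]
    rw [mul_add, mul_sub, mul_one_div_cancel hl0.ne', ← div_div, mul_div_cancel₀ _ hl0.ne']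
    linarith
  have hI : ∫ g, G g ∂(multivariateGaussian 0 C) ≤ l := by
    simp only [G]
    rw [integral_add (integrable_const _) hs2,
      integral_div, integral_add (integrable_const _) hs, integral_finsetSum _ fun i _ => hi i]
    have h6 : ∀ i, ∫ g : EuclideanSpace ℝ (Fin m), (exp (l * g i) + exp (-l * g i) - 2)
        ∂(multivariateGaussian 0 C) ≤ C i i * (2 * (2 * M - 1)) := fun i => by
      have hi2 : Integrable (fun g : EuclideanSpace ℝ (Fin m) =>
          exp (l * g i) + exp (-l * g i)) (multivariateGaussian 0 C) :=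
        (cosh_int hC i l).1.add (cosh_int hC i (-l)).1
      rw [integral_sub hi2 (integrable_const _),
        integral_add (cosh_int hC i l).1 (cosh_int hC i (-l)).1, (cosh_int hC i l).2,
        (cosh_int hC i (-l)).2, neg_sq]
      have h7 := convexOn_exp.2 (Set.mem_univ (l ^ 2 / 2)) (Set.mem_univ 0) hC.diag_nonneg
        (sub_nonneg.2 (h1 i)) (by ring)
      simp only [smul_eq_mul, mul_zero, add_zero, exp_zero, he] at h7
      simp only [integral_const, probReal_univ, smul_eq_mul]
      linarith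
    have h8 := Finset.sum_le_sum fun i (_ : i ∈ Finset.univ) => h6 i
    rw [← Finset.sum_mul] at h8
    have h9 := mul_le_mul_of_nonneg_right ht (show 0 ≤ 2 * (2 * M - 1) by linarith)
    simp only [integral_const, probReal_univ, smul_eq_mul, one_mul]
    rw [← div_div, sub_add, sub_le_self_iff, ← sub_div]
    refine div_nonneg (sub_nonneg.2 ?_) hl0.le
    rw [div_le_one (by positivity)]
    nlinarith
  unfold mean
  simp only [one_mulVec]
  refine le_trans (lintegral_mono fun g => ENNReal.ofReal_le_ofReal (hp g)) ?_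
  rw [← ofReal_integral_eq_lintegral_ofReal hG
    (Filter.Eventually.of_forall fun g => (norm_nonneg _).trans (hp g))]
  exact ENNReal.ofReal_le_ofReal hI

lemma max_lower {K : ℝ} (hK : 0 < K)
    (h : mean (fun x : Fin m → ℝ => ‖x‖) 1 (1 : Matrix (Fin m) (Fin m) ℝ) ≤ ENNReal.ofReal K) :
    (m : ℝ) ≤ 2 * exp ((2 * K + 1) ^ 2 / 2) := by
  unfold mean at h
  rw [multivariateGaussian_zero_one, ← map_pi_eq_stdGaussian,
    lintegral_map (by fun_prop) (by fun_prop)] at h
  simp only [one_mulVec] at h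
  set μ := Measure.pi fun _ : Fin m => gaussianReal 0 1
  have h1 := (mul_meas_ge_le_lintegral (μ := μ) (f := fun x => ENNReal.ofReal ‖x‖)
    (by fun_prop) (ENNReal.ofReal (2 * K))).trans h
  set p := ph * exp (-((2 * K + 1) ^ 2 / 2)) with hp
  have hp0 : 0 < p := mul_pos ph_pos (exp_pos _)
  have h2 : p ≤ (gaussianReal 0 1).real (Set.Icc (2 * K) (2 * K + 1)) := by
    rw [measureReal_def, gaussianReal_apply_eq_integral _ one_ne_zero,
      ENNReal.toReal_ofReal (integral_nonneg fun _ => gaussianPDFReal_nonneg _ _ _)]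
    have := setIntegral_ge_of_const_le (μ := volume) (s := Set.Icc (2 * K) (2 * K + 1))
      (f := gaussianPDFReal 0 1) (c := p) measurableSet_Icc (by simp) (fun x hx => ?_)
      (integrable_gaussianPDFReal 0 1).integrableOn
    · simpa using this
    rw [pdf_eq]
    refine mul_le_mul_of_nonneg_left (exp_le_exp.2 ?_) ph_pos.le
    nlinarith [hx.1, hx.2]
  have h3 : (gaussianReal 0 1).real (Set.Iio (2 * K)) ≤ exp (-p) := by
    have := measureReal_union (μ := gaussianReal 0 1) (s₁ := Set.Iio (2 * K))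
      (s₂ := Set.Icc (2 * K) (2 * K + 1))
      (Set.disjoint_left.2 fun x a b => not_le.2 a b.1) measurableSet_Icc
    linarith [measureReal_le_one (μ := gaussianReal 0 1)
      (s := Set.Iio (2 * K) ∪ Set.Icc (2 * K) (2 * K + 1)), add_one_le_exp (-p)]
  have h4 : μ.real (Set.univ.pi fun _ => Set.Iio (2 * K)) ≤ exp (-p) ^ m := by
    rw [measureReal_def, Measure.pi_pi, ENNReal.toReal_prod, Finset.prod_const, Finset.card_univ,
      Fintype.card_fin]
    exact pow_le_pow_left₀ ENNReal.toReal_nonneg h3 _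
  have h5 : μ.real {x | ENNReal.ofReal (2 * K) ≤ ENNReal.ofReal ‖x‖} ≤ 1 / 2 := by
    have := ENNReal.toReal_mono ENNReal.ofReal_ne_top h1
    rw [ENNReal.toReal_mul, ENNReal.toReal_ofReal (by linarith), ENNReal.toReal_ofReal hK.le,
      ← measureReal_def] at this
    nlinarith
  have h6 : 1 ≤ μ.real (Set.univ.pi fun _ => Set.Iio (2 * K)) +
      μ.real {x | ENNReal.ofReal (2 * K) ≤ ENNReal.ofReal ‖x‖} := by
    refine le_trans ?_ (measureReal_union_le _ _)
    rw [← probReal_univ (μ := μ)]
    refine measureReal_mono fun x _ => ?_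
    by_cases hx : 2 * K ≤ ‖x‖
    · exact Or.inr (ENNReal.ofReal_le_ofReal hx)
    · exact Or.inl fun i _ => (le_abs_self _).trans_lt
        ((norm_le_pi_norm x i).trans_lt (not_le.1 hx))
  have h7 : p * m ≤ log 2 := by
    rw [← exp_nat_mul] at h4
    have := log_le_log (by norm_num) (show 1 / 2 ≤ exp (m * -p) by linarith)
    rw [log_exp, one_div, log_inv] at this
    linarith
  have h8 : exp (-((2 * K + 1) ^ 2 / 2)) * exp ((2 * K + 1) ^ 2 / 2) = 1 := by
    rw [← exp_add]; simp
  have h9 := mul_le_mul_of_nonneg_right h7 (exp_pos ((2 * K + 1) ^ 2 / 2)).le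
  have h10 : ph * m ≤ log 2 * exp ((2 * K + 1) ^ 2 / 2) := by
    refine le_trans (le_of_eq ?_) h9
    rw [hp]
    linear_combination (-ph * m) * h8
  nlinarith [ph_lower, log_two_lt_d9, exp_pos ((2 * K + 1) ^ 2 / 2), Nat.cast_nonneg (α := ℝ) m]

end Pool.Agent.P.MP_7b0970_co.On
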