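import Pool.Agent.P.MP_7b0970_co.On.Low
import Pool.Agent.P.MP_7b0970_co.On.Defs2

/-! The oblivious adversary. -/

open Matrix Real Finset MeasureTheory
open scoped ENNReal Classical

namespace Pool.Agent.P.MP_7b0970_co.On

variable {m n q : ℕ}

lemma norm_le_of_dot {x : Fin m → ℝ} (h : x ⬝ᵥ x = 1) (i : Fin m) : |x i| ≤ 1 := by
  rw [← sq_le_one_iff_abs_le_one, sq, ← h]
  exact single_le_sum (f := fun i => x i * x i) (fun i _ => mul_self_nonneg _) (mem_univ i)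

lemma exists_net (m : ℕ) {η : ℝ} (hη : 0 < η) : ∃ (q : ℕ) (F : Fin q → Fin m → ℝ), 0 < q ∧
    (∀ k, ∑ i, F k i ^ 2 ≤ 1) ∧
      ∀ x, x ⬝ᵥ x = 1 → ∃ k, F k ⬝ᵥ F k = 1 ∧ ∀ i, |F k i - x i| ≤ η := by
  have hc : IsCompact {x : Fin m → ℝ | x ⬝ᵥ x = 1} :=
    (isCompact_closedBall 0 1).of_isClosed_subset (isClosed_eq (by fun_prop) continuous_const)
      fun x hx => mem_closedBall_zero_iff.2
        ((pi_norm_le_iff_of_nonneg zero_le_one).2 (norm_le_of_dot hx))
  obtain ⟨t, ht, hf, hs⟩ := finite_cover_balls_of_compact hc hη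
  set s := insert 0 hf.toFinset
  refine ⟨#s, fun k => s.equivFin.symm k, card_pos.2 (insert_nonempty _ _), fun k => ?_,
    fun x hx => ?_⟩
  · rcases mem_insert.1 (s.equivFin.symm k).2 with h | h
    · simp [h]
    · simpa [sq, dotProduct] using (ht (hf.mem_toFinset.1 h)).le
  · obtain ⟨y, hy, h⟩ := Set.mem_iUnion₂.1 (hs hx)
    refine ⟨s.equivFin ⟨y, mem_insert_of_mem (hf.mem_toFinset.2 hy)⟩, by simpa using ht hy,
      fun i => ?_⟩
    simp only [Equiv.symm_apply_apply]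
    rw [abs_sub_comm]
    exact (norm_le_pi_norm (x - y) i).trans (mem_ball_iff_norm.1 h).le

lemma quad_near {C : Matrix (Fin m) (Fin m) ℝ} (hC : C.PosSemidef) {V η : ℝ}
    (hV : ∀ i, C i i ≤ V) {x f : Fin m → ℝ} (hx : x ⬝ᵥ x = 1) (hf : f ⬝ᵥ f = 1)
    (h : ∀ i, |f i - x i| ≤ η) : f ⬝ᵥ C *ᵥ f ≤ x ⬝ᵥ C *ᵥ x + m * (m * (V * (2 * η))) := by
  have h1 : ∀ i j, |C i j| ≤ V := fun i j => by
    have e : C j i = C i j := by simpa using hC.1.apply i j
    have a := hC.dotProduct_mulVec_nonneg (Pi.single i 1 + Pi.single j 1)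
    have b := hC.dotProduct_mulVec_nonneg (Pi.single i 1 - Pi.single j 1)
    simp only [star_trivial, mulVec_add, mulVec_sub, add_dotProduct, sub_dotProduct,
      single_one_dotProduct, mulVec_single_one, Pi.add_apply, Pi.sub_apply, col_apply, e] at a b
    rw [abs_le]
    constructor <;> linarith [hV i, hV j]
  rw [← sub_le_iff_le_add']
  simp only [dotProduct, mulVec, mul_sum, ← sum_sub_distrib]
  refine (sum_le_card_nsmul _ _ _ fun i _ => sum_le_card_nsmul _ _ (V * (2 * η))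
    fun j _ => ?_).trans (by simp)
  rw [show f i * (C i j * f j) - x i * (C i j * x j) =
    C i j * ((f i - x i) * f j + x i * (f j - x j)) by ring]
  refine (le_abs_self _).trans ?_
  rw [abs_mul]
  refine mul_le_mul (h1 i j) ((abs_add_le _ _).trans ?_) (abs_nonneg _)
    ((abs_nonneg _).trans (h1 i j))
  rw [abs_mul, abs_mul]
  nlinarith [h i, h j, norm_le_of_dot hf j, norm_le_of_dot hx i, abs_nonneg (f i - x i),
    abs_nonneg (f j - x j), abs_nonneg (f j), abs_nonneg (x i)]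

lemma count [NeZero q] (G T : ℕ) (φ : (Fin (G * T) → Fin q) → Fin (G * T) → Fin q)
    (hφ : ∀ x y t, (∀ l < t, x l = y l) → φ x t = φ y t) :
    #{x | ∀ k : Fin G, ∃ s : Fin T, x (finProdFinEquiv (k, s)) ≠ φ x (finProdFinEquiv (k, s))} ≤
      (q ^ T - 1) ^ G := by
  have h1 : #(Fintype.piFinset fun _ : Fin G => (univ : Finset (Fin T → Fin q)).erase 0) =
      (q ^ T - 1) ^ G := by simp [card_erase_of_mem]
  rw [← h1]
  refine card_le_card_of_injOn (fun x k s => (x - φ x) (finProdFinEquiv (k, s)))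
    (fun x hx => ?_) fun x _ y _ e => ?_
  · refine mem_coe.2 (Fintype.mem_piFinset.2 fun k => mem_erase.2 ⟨fun e => ?_, mem_univ _⟩)
    obtain ⟨s, hs⟩ := (mem_filter.1 (mem_coe.1 hx)).2 k
    exact hs (sub_eq_zero.1 (congrFun e s))
  · funext t
    induction t using WellFoundedLT.induction with
    | ind t ih =>
      obtain ⟨⟨k, s⟩, rfl⟩ := finProdFinEquiv.surjective t
      have := congrFun (congrFun e k) s
      simp only [Pi.sub_apply, hφ x y _ ih] at this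
      exact sub_left_injective this

lemma adm_mat {F : Fin q → Fin m → ℝ} (hF : ∀ k, ∑ i, F k i ^ 2 ≤ 1) (x : Fin n → Fin q) :
    Adm (mat F x) := fun j => hF (x j)

lemma norm_facts (N : Seminorm ℝ (Fin m → ℝ)) (h0 : ∀ x, N x = 0 → x = 0) :
    Continuous N ∧ (∃ κ, 0 < κ ∧ ∀ x, κ * ‖x‖ ≤ N x) ∧
      mean N 1 (1 : Matrix (Fin m) (Fin m) ℝ) ≠ ⊤ := by
  have hN : Continuous N := continuousOn_univ.1 (N.convexOn.continuousOn isOpen_univ)
  refine ⟨hN, ?_, ?_⟩
  · rcases (Metric.sphere (0 : Fin m → ℝ) 1).eq_empty_or_nonempty with h | h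
    · refine ⟨1, one_pos, fun x => ?_⟩
      by_cases hx : x = 0
      · simp [hx]
      · exact absurd (h ▸ (by simp [norm_smul, hx] : ‖x‖⁻¹ • x ∈ Metric.sphere 0 1))
          (Set.notMem_empty _)
    obtain ⟨y, hy, h1⟩ := (isCompact_sphere 0 1).exists_isMinOn h hN.continuousOn
    refine ⟨N y, (apply_nonneg N y).lt_of_ne' fun e => by simp [h0 y e] at hy, fun x => ?_⟩
    by_cases hx : x = 0
    · simp [hx]
    have h2 : N y ≤ N (‖x‖⁻¹ • x) := h1 (by simp [norm_smul, hx])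
    rw [map_smul_eq_mul, norm_inv, norm_norm] at h2
    rwa [← le_div_iff₀ (norm_pos_iff.2 hx), div_eq_inv_mul]
  · obtain ⟨c, hc, h1⟩ := N.bound_of_continuous_normedSpace hN
    have h2 := max_upper (C := (1 : Matrix (Fin m) (Fin m) ℝ)) PosSemidef.one (by simp)
      (M := m + 1) (by simp) (by simp)
    refine ne_top_of_le_ne_top (ENNReal.mul_ne_top (ENNReal.ofReal_ne_top (r := c))
      ENNReal.ofReal_ne_top) (le_trans ?_ (mul_le_mul_right h2 _))
    unfold mean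
    rw [← lintegral_const_mul _ (by fun_prop)]
    refine lintegral_mono fun g => ?_
    rw [← ENNReal.ofReal_mul hc.le]
    exact ENNReal.ofReal_le_ofReal (h1 _)

theorem oblivious (N : Seminorm ℝ (Fin m → ℝ)) (h0 : ∀ x, N x = 0 → x = 0) {a ε : ℝ}
    (ha : 0 ≤ a) (ha' : a < 1 / 2) (hε : 0 < ε) :
    ∃ (n q : ℕ) (F : Fin q → Fin m → ℝ), 0 < q ∧ (∀ k, ∑ i, F k i ^ 2 ≤ 1) ∧
      ∀ S : Matrix (Fin m) (Fin n) ℝ → Matrix (Fin n) (Fin n) ℝ, Online S →
        (#{x : Fin n → Fin q | ∀ t : ℕ, mean N (cut t (mat F x)) (S (mat F x)) <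
          ENNReal.ofReal a * mean N 1 (1 : Matrix (Fin m) (Fin m) ℝ)} : ℝ) < ε * (q : ℝ) ^ n := by
  obtain ⟨hN, ⟨κ, hκ, hκN⟩, hfin⟩ := norm_facts N h0
  set K := (ENNReal.ofReal a * mean N 1 (1 : Matrix (Fin m) (Fin m) ℝ)).toReal with hK
  have hK' : ENNReal.ofReal K = ENNReal.ofReal a * mean N 1 (1 : Matrix (Fin m) (Fin m) ℝ) :=
    ENNReal.ofReal_toReal (ENNReal.mul_ne_top ENNReal.ofReal_ne_top hfin)
  set V := 2 * (K / κ) ^ 2
  have hV : 0 ≤ V := by positivity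
  set b := (a + 1 / 2) / 2 with hb
  have hab : 0 < b ^ 2 - a ^ 2 := by nlinarith
  set η := (b ^ 2 - a ^ 2) / (m * (m * (V * 2)) + 1) with hη
  have hη0 : 0 < η := by positivity
  have hη1 : m * (m * (V * (2 * η))) ≤ b ^ 2 - a ^ 2 := by
    have : η * (m * (m * (V * 2)) + 1) = b ^ 2 - a ^ 2 := div_mul_cancel₀ _ (by positivity)
    linarith
  obtain ⟨q, F, hq, hF, hnet⟩ := exists_net m hη0
  have : NeZero q := ⟨hq.ne'⟩
  obtain ⟨T, hT⟩ := exists_nat_gt (m * V / (1 - 2 * b))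
  rw [div_lt_iff₀ (by linarith)] at hT
  have hQ : (1 : ℝ) ≤ (q : ℝ) ^ T := one_le_pow₀ (by exact_mod_cast hq)
  obtain ⟨G, hG⟩ := exists_pow_lt_of_lt_one hε
    (show ((q : ℝ) ^ T - 1) / q ^ T < 1 by rw [div_lt_one (by positivity)]; linarith)
  refine ⟨G * T, q, F, hq, hF, fun S hS => ?_⟩
  set P : Matrix (Fin m) (Fin m) ℝ → Fin q → Prop :=
    fun C k => F k ⬝ᵥ F k = 1 ∧ F k ⬝ᵥ C *ᵥ F k ≤ b ^ 2
  set φ : (Fin (G * T) → Fin q) → Fin (G * T) → Fin q :=
    fun x t => Classical.epsilon (P (cv S (mat F x) t))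
  have h1 := count G T φ fun x y t h => by
    simp only [φ]
    rw [cv_congr hS (adm_mat hF x) (adm_mat hF y)]
    ext i j
    by_cases hj : j.val < t
    · rw [cut_lt _ i hj, cut_lt _ i hj, mat, mat, of_apply, of_apply, h j hj]
    · rw [cut_ge _ i hj, cut_ge _ i hj]
  have h2 : (((q ^ T - 1) ^ G : ℕ) : ℝ) < ε * (q : ℝ) ^ (G * T) := by
    rw [div_pow, div_lt_iff₀ (by positivity), ← pow_mul, mul_comm T G] at hG
    rwa [Nat.cast_pow, Nat.cast_sub (Nat.one_le_pow _ _ hq), Nat.cast_pow, Nat.cast_one]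
  refine lt_of_le_of_lt (Nat.cast_le.2 (le_trans (card_le_card fun x hx => ?_) h1)) h2
  have hA := adm_mat hF x
  have h3 : ∀ t, mean N 1 (cv S (mat F x) t) <
      ENNReal.ofReal a * mean N 1 (1 : Matrix (Fin m) (Fin m) ℝ) := fun t => by
    rw [cv, ← mean_eq hN (hS.1 _ hA).1]
    exact (mem_filter.1 hx).2 t
  have h4 : ∀ t i, cv S (mat F x) t i i ≤ V := fun t =>
    var_le hκ ENNReal.toReal_nonneg hκN (cv_psd hS hA t) ((h3 t).le.trans hK'.ge)
  refine mem_filter.2 ⟨mem_univ _, fun k => ?_⟩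
  by_contra hc
  push Not at hc
  have h5 : ∀ s ≤ T, s * (1 - 2 * b) ≤ ∑ i, cv S (mat F x) (s + T * k) i i := by
    intro s hs
    induction s with
    | zero => simpa using sum_nonneg fun i _ => (cv_psd hS hA _).diag_nonneg
    | succ s ih =>
      set t := finProdFinEquiv (k, (⟨s, hs⟩ : Fin T)) with ht
      have h6 : P (cv S (mat F x) t) (φ x t) := Classical.epsilon_spec (p := P _) <| by
        obtain ⟨y, hy, hy2⟩ := small_of_mean hN (cv_psd hS hA t) ha (h3 t)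
        obtain ⟨l, hl, hl2⟩ := hnet y hy
        exact ⟨l, hl, (quad_near (cv_psd hS hA t) (h4 t) hy hl hl2).trans (by linarith)⟩
      rw [← hc ⟨s, hs⟩] at h6
      have h7 := step hS hA t (b := b) (by linarith) h6.1 h6.2
      have h8 : (t : ℕ) = s + T * k := rfl
      rw [h8] at h7
      rw [show s + 1 + T * k = s + T * k + 1 by ring]
      push_cast
      linarith [ih (by omega)]
  have h9 := sum_le_card_nsmul univ _ _ fun i _ => h4 (T + T * k) i
  simp only [card_univ, Fintype.card_fin, nsmul_eq_mul] at h9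
  linarith [h5 T le_rfl]

theorem quant_ge (N : Seminorm ℝ (Fin m → ℝ)) (h0 : ∀ x, N x = 0 → x = 0) {δ : ℝ} (hδ : 0 < δ) :
    mean N 1 (1 : Matrix (Fin m) (Fin m) ℝ) / 2 ≤ quant N δ := by
  have h1 : ∀ a : ℝ, 0 ≤ a → a < 1 / 2 →
      ENNReal.ofReal a * mean N 1 (1 : Matrix (Fin m) (Fin m) ℝ) ≤ quant N δ := fun a ha ha' => by
    obtain ⟨n, q, F, hq, hF, h⟩ := oblivious N h0 ha ha' hδ
    refine le_iSup_of_le n (le_iSup₂_of_le q hq (le_iSup₂_of_le F hF
      (le_iInf₂ fun S hS => le_iInf₂ fun K hK => ?_)))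
    by_contra hc
    refine (hK.trans ?_).not_gt (h S hS)
    rw [← Set.ncard_coe_finset]
    exact Nat.cast_le.2 (Set.ncard_le_ncard fun x hx =>
      mem_coe.2 (mem_filter.2 ⟨mem_univ _, fun t => (hx t).trans_lt (not_le.1 hc)⟩))
  rw [div_eq_mul_inv, mul_comm]
  refine ENNReal.mul_le_of_forall_lt fun a ha l hl => ?_
  have h2 : a ≠ ⊤ := ne_top_of_lt ha
  refine le_trans ?_ (h1 a.toReal ENNReal.toReal_nonneg ?_)
  · rw [ENNReal.ofReal_toReal h2]
    exact mul_le_mul_right hl.le _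
  · simpa using (ENNReal.toReal_lt_toReal h2 (by simp)).2 ha

theorem quant_le (N : (Fin m → ℝ) → ℝ) {δ : ℝ} (hδ : δ ≤ 1) : quant N δ ≤ worst N := by
  refine iSup_le fun n => iSup₂_le fun q _ => iSup₂_le fun F hF => le_iSup_of_le n
    (le_iInf₂ fun S hS => iInf₂_le_of_le S hS (iInf₂_le_of_le _ ?_ le_rfl))
  rw [Set.eq_univ_of_forall (s := {x : Fin n → Fin q | _}) fun x t =>
    le_iSup₂_of_le (mat F x) (adm_mat hF x) (le_iSup (fun t => mean N (cut t _) _) t)]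
  simpa using mul_le_of_le_one_left (by positivity) hδ

theorem worst_le (N : Seminorm ℝ (Fin m → ℝ)) (hN : Continuous N) :
    worst N ≤ mean N 1 (1 : Matrix (Fin m) (Fin m) ℝ) :=
  iSup_le fun _ => iInf₂_le_of_le _ online_um (iSup₂_le fun A hA => iSup_le fun t => by
    rw [mean_eq hN (online_um.1 A hA).1]
    exact mean_mono hN (psd_conj (online_um.1 A hA).1 _) (upper hA t).1)

end Pool.Agent.P.MP_7b0970_co.On
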