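import Pool.Agent.P.MP_7b0970_co.On.Low

/-! The two bounds for the sup norm. -/

open Matrix Real Finset MeasureTheory
open scoped ENNReal

namespace Pool.Agent.P.MP_7b0970_co.On

variable {m n : ℕ} {S : Matrix (Fin m) (Fin n) ℝ → Matrix (Fin n) (Fin n) ℝ}

/-- Zero rows added below. -/
def pad (m : ℕ) {r : ℕ} (A : Matrix (Fin r) (Fin n) ℝ) : Matrix (Fin m) (Fin n) ℝ :=
  Matrix.of fun i j => if h : i.val < r then A ⟨i, h⟩ j else 0

lemma adm_pad {r : ℕ} (hr : r ≤ m) {A : Matrix (Fin r) (Fin n) ℝ} (hA : Adm A) :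
    Adm (pad m A) := fun j => by
  refine le_trans (le_of_eq ?_) (hA j)
  rw [← sum_subset (s₁ := univ.map (Fin.castLEEmb hr)) (subset_univ _) fun i _ hi => by
    rw [pad, of_apply, dif_neg fun h => hi (mem_map.2 ⟨⟨i, h⟩, mem_univ _, rfl⟩)]
    simp, sum_map]
  simp [pad]

lemma online_pad {r : ℕ} (hr : r ≤ m) (hS : Online S) :
    Online fun A : Matrix (Fin r) (Fin n) ℝ => S (pad m A) :=
  ⟨fun A hA => hS.1 _ (adm_pad hr hA), fun A B hA hB j k h =>
    hS.2 _ _ (adm_pad hr hA) (adm_pad hr hB) j k fun i l hl => by simp only [pad, of_apply, h _ l hl]⟩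

lemma mean_pad {r : ℕ} (hr : r ≤ m) (A : Matrix (Fin r) (Fin n) ℝ) (C : Matrix (Fin n) (Fin n) ℝ) :
    mean (fun x : Fin r → ℝ => ‖x‖) A C ≤ mean (fun x : Fin m → ℝ => ‖x‖) (pad m A) C :=
  lintegral_mono fun g => ENNReal.ofReal_le_ofReal <|
    (pi_norm_le_iff_of_nonneg (norm_nonneg _)).2 fun i => by
      refine le_trans (le_of_eq ?_) (norm_le_pi_norm _ (Fin.castLE hr i))
      simp [pad, mulVec, dotProduct]

lemma half_le (hS : Online S) (hm : 0 < m) (hn : 0 < n) {K : ℝ} (hK : 0 < K)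
    (h : ∀ A, Adm A → mean (fun x : Fin m → ℝ => ‖x‖) A (S A) < ENNReal.ofReal K) :
    1 ≤ 2 * K ^ 2 := by
  set A : Matrix (Fin m) (Fin n) ℝ :=
    Matrix.of fun i => if i = ⟨0, hm⟩ then Pi.single ⟨0, hn⟩ 1 else 0 with hA'
  have hA : Adm A := fun j => by
    rw [sum_eq_single ⟨0, hm⟩ (fun b _ hb => by simp [hA', hb]) (by simp)]
    simp only [hA', of_apply, if_true, Pi.single_apply]
    split_ifs <;> simp
  have h1 := (h A hA).le
  rw [mean_eq continuous_norm (hS.1 A hA).1] at h1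
  have h2 := var_le (κ := 1) one_pos hK.le (fun x => (one_mul _).le) (psd_conj (hS.1 A hA).1 A) h1
    ⟨0, hm⟩
  rw [conj_diag, show A ⟨0, hm⟩ = Pi.single ⟨0, hn⟩ 1 by
    funext j; simp [hA'], ← diag_eq,
    (hS.1 A hA).2, div_one] at h2
  exact h2

theorem lower (hS : Online S) (hm : 0 < m) (hn : 0 < n) :
    ENNReal.ofReal (√(log (min m n : ℕ)) / 6) ≤
      ⨆ (A) (_ : Adm A), mean (fun x : Fin m → ℝ => ‖x‖) A (S A) := by
  by_contra hc
  set K := √(log (min m n : ℕ)) / 6 with hK'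
  have h : ∀ A, Adm A → mean (fun x : Fin m → ℝ => ‖x‖) A (S A) < ENNReal.ofReal K :=
    fun A hA => (le_iSup₂_of_le A hA le_rfl).trans_lt (not_le.1 hc)
  have hK : 0 < K := ENNReal.ofReal_pos.1 (zero_le.trans_lt (not_le.1 hc))
  have h1 := half_le hS hm hn hK h
  have hM : (1 : ℝ) ≤ (min m n : ℕ) := by exact_mod_cast lt_min hm hn
  have h2 : exp (36 * K ^ 2) = (min m n : ℕ) := by
    rw [hK', div_pow, sq_sqrt (log_nonneg hM), show ∀ x : ℝ, 36 * (x / 6 ^ 2) = x from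
      fun x => by ring,
      exp_log (by linarith)]
  have h3 : exp ((6 * K + 1) ^ 2 / 2) ≤ exp (28 * K ^ 2) := exp_le_exp.2 (by
    have : 0.7 ≤ K := by nlinarith
    nlinarith)
  have h4 : 18 * K ^ 2 < exp (8 * K ^ 2) := by
    have := add_one_lt_exp (x := 4 * K ^ 2) (by positivity)
    rw [show 8 * K ^ 2 = 4 * K ^ 2 + 4 * K ^ 2 by ring, exp_add]
    nlinarith
  have h5 : exp (36 * K ^ 2) = exp (8 * K ^ 2) * exp (28 * K ^ 2) := by
    rw [← exp_add]; congr 1; ring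
  have h6 : 1 ≤ exp (28 * K ^ 2) := one_le_exp (by positivity)
  set r := ⌊2 * exp (28 * K ^ 2)⌋₊ + 1
  have h7 : (r : ℝ) ≤ 3 * exp (28 * K ^ 2) := by
    have := Nat.floor_le (show 0 ≤ 2 * exp (28 * K ^ 2) by positivity)
    simp only [r]
    push_cast
    linarith
  have h8 : 2 * exp (28 * K ^ 2) < r := by
    simp only [r]
    push_cast
    exact Nat.lt_floor_add_one _
  have hm' : ((min m n : ℕ) : ℝ) ≤ m := by exact_mod_cast min_le_left m n
  have hn' : ((min m n : ℕ) : ℝ) ≤ n := by exact_mod_cast min_le_right m n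
  have hr : r ≤ m := by
    have : (r : ℝ) ≤ m := by nlinarith
    exact_mod_cast this
  have h9 := adapt (online_pad hr hS) hK (by linarith) fun A hA =>
    (mean_pad hr A _).trans_lt (h _ (adm_pad hr hA))
  nlinarith [mul_le_mul_of_nonneg_left h7 (show 0 ≤ 6 * K ^ 2 by positivity)]

theorem upper_sup (hm : 0 < m) (hn : 0 < n) {A : Matrix (Fin m) (Fin n) ℝ} (hA : Adm A) :
    mean (fun x : Fin m → ℝ => ‖x‖) A (um A * (um A)ᵀ) ≤
      ENNReal.ofReal √(2 * log (2 * (min m n : ℕ))) := by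
  obtain ⟨h1, h2⟩ := upper hA n
  rw [cut_all] at h1 h2
  have h3 : ∀ i, (A * (um A * (um A)ᵀ) * Aᵀ) i i ≤ 1 := fun i => by
    simpa using h1.diag_nonneg (i := i)
  rw [mean_eq continuous_norm (online_um.1 A hA).1]
  refine max_upper (psd_conj (online_um.1 A hA).1 A) h3 (by exact_mod_cast lt_min hm hn) ?_
  rw [Nat.cast_min]
  exact le_min ((sum_le_card_nsmul _ _ _ fun i _ => h3 i).trans (by simp)) h2

end Pool.Agent.P.MP_7b0970_co.On
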