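import Pool.Agent.P.MP_7b0970_co.On.Max

/-! The online rule that keeps an isometry. -/

open Matrix Real Finset

namespace Pool.Agent.P.MP_7b0970_co.On

variable {m n : ℕ}

/-- The fresh coordinate of step `j`. -/
def fr (m n j : ℕ) : Fin m ⊕ Fin n → ℝ := Sum.elim 0 fun k => if k.val = j then 1 else 0

/-- The state after `j` steps, applied to `x`. -/
noncomputable def st (n : ℕ) (v : ℕ → Fin m → ℝ) : ℕ → (Fin m → ℝ) → Fin m ⊕ Fin n → ℝ
  | 0 => fun x => Sum.elim (fun i => x i / 2) 0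
  | j + 1 => fun x => st n v j x +
      (x ⬝ᵥ v j) • ((-2 : ℝ) • st n v j (v j) + √(1 - v j ⬝ᵥ v j) • fr m n j)

/-- The unit vector of step `j`. -/
noncomputable def un (n : ℕ) (v : ℕ → Fin m → ℝ) (j : ℕ) : Fin m ⊕ Fin n → ℝ :=
  (-2 : ℝ) • st n v j (v j) + √(1 - v j ⬝ᵥ v j) • fr m n j

lemma st_succ (v : ℕ → Fin m → ℝ) (j : ℕ) (x : Fin m → ℝ) :
    st n v (j + 1) x = st n v j x + (x ⬝ᵥ v j) • un n v j := rfl

lemma fr_fr {j k : ℕ} (hj : j < n) : fr m n j ⬝ᵥ fr m n k = if j = k then 1 else 0 := by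
  simp only [dotProduct, fr, Fintype.sum_sum_type, Sum.elim_inl, Sum.elim_inr, Pi.zero_apply,
    mul_zero, sum_const_zero, zero_add]
  rw [sum_eq_single ⟨j, hj⟩ (fun b _ hb => by rw [if_neg fun e => hb (Fin.ext e), zero_mul])
    (by simp)]
  simp

lemma un_un {v : ℕ → Fin m → ℝ} {j : ℕ} (hj : j < n) (hv : v j ⬝ᵥ v j ≤ 1)
    (h1 : ∀ x y, st n v j x ⬝ᵥ st n v j y = x ⬝ᵥ y / 4) (h2 : ∀ x, st n v j x ⬝ᵥ fr m n j = 0) :
    (∀ x, st n v j x ⬝ᵥ un n v j = -(x ⬝ᵥ v j) / 2) ∧ un n v j ⬝ᵥ un n v j = 1 := by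
  have h3 : ∀ x, st n v j x ⬝ᵥ un n v j = -(x ⬝ᵥ v j) / 2 := fun x => by
    rw [un, dotProduct_add, dotProduct_smul, dotProduct_smul, h1, h2]
    simp only [smul_eq_mul]
    ring
  refine ⟨h3, ?_⟩
  conv_lhs => lhs; rw [un]
  rw [add_dotProduct, smul_dotProduct, smul_dotProduct, h3, un, dotProduct_add, dotProduct_smul,
    dotProduct_smul, dotProduct_comm (fr m n j) (st n v j _), h2, fr_fr hj, if_pos rfl]
  simp only [smul_eq_mul]
  linear_combination mul_self_sqrt (sub_nonneg.2 hv)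

lemma st_inv {v : ℕ → Fin m → ℝ} (hv : ∀ j, v j ⬝ᵥ v j ≤ 1) (j : ℕ) (hj : j ≤ n) :
    (∀ x y, st n v j x ⬝ᵥ st n v j y = x ⬝ᵥ y / 4) ∧
      ∀ k, j ≤ k → ∀ x, st n v j x ⬝ᵥ fr m n k = 0 := by
  induction j with
  | zero =>
    refine ⟨fun x y => ?_, fun k _ x => by simp [st, fr, dotProduct]⟩
    simp only [st, dotProduct, Fintype.sum_sum_type, Sum.elim_inl, Sum.elim_inr, Pi.zero_apply,
      mul_zero, sum_const_zero, add_zero, sum_div]
    exact sum_congr rfl fun i _ => by ring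
  | succ j ih =>
    obtain ⟨h1, h2⟩ := ih (by omega)
    obtain ⟨h3, h4⟩ := un_un (by omega) (hv j) h1 (h2 j le_rfl)
    refine ⟨fun x y => ?_, fun k hk x => ?_⟩
    · rw [st_succ, st_succ, add_dotProduct, dotProduct_add, dotProduct_add, dotProduct_smul,
        smul_dotProduct, smul_dotProduct, dotProduct_smul, h1, h3, h4,
        dotProduct_comm (un n v j), h3]
      simp only [smul_eq_mul]
      ring
    · rw [st_succ, add_dotProduct, smul_dotProduct, un, add_dotProduct, smul_dotProduct,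
        smul_dotProduct, h2 k (by omega), h2 k (by omega), fr_fr (by omega), if_neg (by omega)]
      simp

lemma st_congr {v w : ℕ → Fin m → ℝ} (j : ℕ) (h : ∀ l < j, v l = w l) : st n v j = st n w j := by
  induction j with
  | zero => rfl
  | succ j ih =>
    funext x
    simp only [st, ih fun l hl => h l (by omega), h j (by omega)]

lemma un_congr {v w : ℕ → Fin m → ℝ} {j : ℕ} (h : ∀ l ≤ j, v l = w l) : un n v j = un n w j := by
  rw [un, un, st_congr j fun l hl => h l hl.le, h j le_rfl]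

lemma st_sum (v : ℕ → Fin m → ℝ) (j : ℕ) (x : Fin m → ℝ) :
    st n v j x = st n v 0 x + ∑ l ∈ range j, (x ⬝ᵥ v l) • un n v l := by
  induction j with
  | zero => simp
  | succ j ih => rw [st_succ, ih, sum_range_succ, add_assoc]

/-- The columns as a sequence. -/
def col (A : Matrix (Fin m) (Fin n) ℝ) (j : ℕ) : Fin m → ℝ :=
  if h : j < n then fun i => A i ⟨j, h⟩ else 0

lemma col_val (A : Matrix (Fin m) (Fin n) ℝ) (j : Fin n) : col A j = fun i => A i j := by
  simp [col]

lemma col_le {A : Matrix (Fin m) (Fin n) ℝ} (hA : Adm A) (j : ℕ) : col A j ⬝ᵥ col A j ≤ 1 := by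
  unfold col
  split_ifs with h
  · simpa [dotProduct, sq] using hA ⟨j, h⟩
  · simp

/-- The matrix of the unit vectors. -/
noncomputable def um (A : Matrix (Fin m) (Fin n) ℝ) : Matrix (Fin n) (Fin m ⊕ Fin n) ℝ :=
  Matrix.of fun j => un n (col A) j

lemma un_one {A : Matrix (Fin m) (Fin n) ℝ} (hA : Adm A) {j : ℕ} (hj : j < n) :
    un n (col A) j ⬝ᵥ un n (col A) j = 1 :=
  (un_un hj (col_le hA j) (st_inv (col_le hA) j hj.le).1
    ((st_inv (col_le hA) j hj.le).2 j le_rfl)).2

lemma online_um : Online fun A : Matrix (Fin m) (Fin n) ℝ => um A * (um A)ᵀ := by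
  refine ⟨fun A hA => ⟨by simpa using posSemidef_self_mul_conjTranspose (um A),
    fun j => un_one hA j.2⟩, fun A B _ _ j k h => ?_⟩
  have e : ∀ l : Fin n, l ≤ max j k → un n (col A) l = un n (col B) l := fun l hl =>
    un_congr fun r hr => by
      have hr' : r < n := hr.trans_lt l.2
      funext i
      simp only [col, dif_pos hr']
      exact h i _ (le_trans (show (⟨r, hr'⟩ : Fin n) ≤ l from hr) hl)
  change un n (col A) j ⬝ᵥ un n (col A) k = un n (col B) j ⬝ᵥ un n (col B) k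
  rw [e j (le_max_left _ _), e k (le_max_right _ _)]

lemma quad_um (A : Matrix (Fin m) (Fin n) ℝ) (t : ℕ) (x : Fin m → ℝ) :
    x ⬝ᵥ (cut t A * (um A * (um A)ᵀ) * (cut t A)ᵀ) *ᵥ x =
      (∑ l ∈ range (min t n), (x ⬝ᵥ col A l) • un n (col A) l) ⬝ᵥ
        ∑ l ∈ range (min t n), (x ⬝ᵥ col A l) • un n (col A) l := by
  have e : (x ᵥ* cut t A) ᵥ* um A = ∑ l ∈ range (min t n), (x ⬝ᵥ col A l) • un n (col A) l := by
    rw [vecMul_eq_sum, ← sum_subset (s₁ := univ.filter fun j : Fin n => j.val < t)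
      (filter_subset _ _) fun j _ hj => by
        simp [vecMul, dotProduct, cut, show ¬ j.val < t by simpa using hj]]
    refine sum_bij (fun j _ => j.val) (fun j hj => by simpa using hj) (fun _ _ _ _ => Fin.ext)
      (fun l hl => ⟨⟨l, by simp at hl; omega⟩, by simp at hl ⊢; omega, rfl⟩) fun j hj => ?_
    rw [col_val]
    simp [vecMul, dotProduct, cut, show j.val < t by simpa using hj]
    rfl
  rw [quad_conj, ← mulVec_mulVec, dotProduct_mulVec, mulVec_transpose, e]

lemma diag_eq (C : Matrix (Fin m) (Fin m) ℝ) (i : Fin m) :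
    C i i = Pi.single i 1 ⬝ᵥ C *ᵥ Pi.single i 1 := by simp

theorem upper {A : Matrix (Fin m) (Fin n) ℝ} (hA : Adm A) (t : ℕ) :
    (1 - cut t A * (um A * (um A)ᵀ) * (cut t A)ᵀ).PosSemidef ∧
      ∑ i, (cut t A * (um A * (um A)ᵀ) * (cut t A)ᵀ) i i ≤ n := by
  have h0 := (st_inv (n := n) (col_le hA) 0 (Nat.zero_le _)).1
  have h1 := (st_inv (n := n) (col_le hA) (min t n) (min_le_right _ _)).1
  have h2 : ∀ x, ∑ l ∈ range (min t n), (x ⬝ᵥ col A l) • un n (col A) l =
      st n (col A) (min t n) x - st n (col A) 0 x := fun x => by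
    rw [st_sum _ (min t n), add_sub_cancel_left]
  refine ⟨PosSemidef.of_dotProduct_mulVec_nonneg
    (isHermitian_one.sub (psd_conj (online_um.1 A hA).1 _).1) fun x => ?_, ?_⟩
  · rw [star_trivial, sub_mulVec, dotProduct_sub, one_mulVec, quad_um, h2]
    have h3 : 0 ≤ (st n (col A) (min t n) x + st n (col A) 0 x) ⬝ᵥ
      (st n (col A) (min t n) x + st n (col A) 0 x) :=
      sum_nonneg fun c _ => mul_self_nonneg _
    simp only [dotProduct_add, add_dotProduct, dotProduct_sub, sub_dotProduct, h0, h1] at h3 ⊢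
    linarith
  · have h4 : ∀ i, (cut t A * (um A * (um A)ᵀ) * (cut t A)ᵀ) i i =
        ∑ l ∈ range (min t n), -(col A l i * un n (col A) l (Sum.inl i)) := fun i => by
      rw [diag_eq (cut t A * _ * _), quad_um]
      have h5 := h1 (Pi.single i 1) (Pi.single i 1)
      rw [st_sum] at h5
      generalize hD : ∑ l ∈ range (min t n), (Pi.single i 1 ⬝ᵥ col A l) • un n (col A) l = D
        at h5 ⊢
      have h6 : st n (col A) 0 (Pi.single i 1) ⬝ᵥ D = D (Sum.inl i) / 2 := by
        simp only [st, dotProduct, Fintype.sum_sum_type, Sum.elim_inl, Sum.elim_inr,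
          Pi.zero_apply, zero_mul, sum_const_zero, add_zero]
        rw [sum_eq_single i (fun b _ hb => by simp [hb]) (by simp)]
        simp only [Pi.single_eq_same]
        ring
      rw [add_dotProduct, dotProduct_add, dotProduct_add, h0, dotProduct_comm D (st n _ _ _), h6] at h5
      rw [sum_neg_distrib, show D ⬝ᵥ D = -D (Sum.inl i) by linarith, ← hD]
      simp
    simp only [h4]
    rw [sum_comm]
    refine (sum_le_card_nsmul _ _ 1 fun l hl => ?_).trans (by simp)
    have h7 := un_one hA (j := l) (by simp at hl; omega)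
    have h8 := col_le hA l
    simp only [dotProduct, Fintype.sum_sum_type] at h7 h8
    have h9 := sum_nonneg fun k (_ : k ∈ univ) => mul_self_nonneg (un n (col A) l (Sum.inr k))
    have h10 := sum_le_sum fun i (_ : i ∈ univ) =>
      show -(col A l i * un n (col A) l (Sum.inl i)) ≤ (col A l i * col A l i +
        un n (col A) l (Sum.inl i) * un n (col A) l (Sum.inl i)) / 2 by
        nlinarith [sq_nonneg (col A l i + un n (col A) l (Sum.inl i))]
    rw [← sum_div, sum_add_distrib] at h10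
    linarith

end Pool.Agent.P.MP_7b0970_co.On
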